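import Pool.Agent.Q239.Sul.Eval

/-!
# The ascents: a 3 by 3 determinant
-/

open Finset

namespace Q239.Sul

theorem asc_rec (m M : ℤ) {x y z : ℤ} (h : ch x y z) (hx : 0 < x) :
    A DA m M x y z = A DA m M x y (z - 1) +
      (A DA m M x (y - 1) z + if ch x (y - 1) z then A DA m (M - 1) x (y - 1) (z - 1) else 0) +
      (A DA m M (x - 1) y z + if ch (x - 1) y z then
        (A DA m (M - 1) (x - 1) (y - 1) z +
          (if ch (x - 1) (y - 1) z then A DA m (M - 2) (x - 1) (y - 1) (z - 1) else 0) +
          A DA m (M - 1) (x - 1) y (z - 1)) else 0) := by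
  rw [A_split DA m M hx, T0 m M h, T1 m M h, T2 m M h]
  have e1 : Aj DA 2 m (M - 1) x (y - 1) z =
      if ch x (y - 1) z then A DA m (M - 1) x (y - 1) (z - 1) else 0 := by
    split_ifs with h1
    · rw [T2 m (M - 1) h1]
    · rw [Aj_out h1]
  have e2 : Aj DA 1 m (M - 1) (x - 1) y z + Aj DA 2 m (M - 1) (x - 1) y z =
      if ch (x - 1) y z then
        (A DA m (M - 1) (x - 1) (y - 1) z +
          (if ch (x - 1) (y - 1) z then A DA m (M - 2) (x - 1) (y - 1) (z - 1) else 0) +
          A DA m (M - 1) (x - 1) y (z - 1)) else 0 := by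
    split_ifs with h1 h2
    · rw [T1 m (M - 1) h1, T2 m (M - 1) h1, T2 m (M - 1 - 1) h2]
      rw [show M - 1 - 1 = M - 2 by ring]
    · rw [T1 m (M - 1) h1, T2 m (M - 1) h1, Aj_out h2]
    · rw [Aj_out h1, Aj_out h1]; ring
  rw [e1]
  linear_combination e2

/-- a 3 by 3 determinant -/
def D3 (a1 a2 a3 b1 b2 b3 c1 c2 c3 : ℚ) : ℚ :=
  a1 * (b2 * c3 - b3 * c2) - a2 * (b1 * c3 - b3 * c1) + a3 * (b1 * c2 - b2 * c1)

noncomputable def Dt (m x y z : ℤ) : ℚ :=
  D3 (c m x) (c m (x + 1)) (c m (x + 2)) (c (m - 1) (y - 1)) (c (m - 1) y) (c (m - 1) (y + 1))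
    (c (m - 2) (z - 2)) (c (m - 2) (z - 1)) (c (m - 2) z)

lemma Dt_neg {m x y z : ℤ} (h : z < 0) : Dt m x y z = 0 := by
  unfold Dt D3
  rw [c_neg _ h, c_neg (m - 2) (k := z - 1) (by omega), c_neg (m - 2) (k := z - 2) (by omega)]
  ring

lemma Dt_rec (m x y z : ℤ) : Dt (m + 1) x y z = Dt m x y z + Dt m (x - 1) y z +
    Dt m x (y - 1) z + Dt m x y (z - 1) + Dt m (x - 1) (y - 1) z + Dt m (x - 1) y (z - 1) +
    Dt m x (y - 1) (z - 1) + Dt m (x - 1) (y - 1) (z - 1) := by
  unfold Dt D3
  rw [show m + 1 - 1 = (m - 1) + 1 by ring, show m + 1 - 2 = (m - 2) + 1 by ring]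
  simp only [c_pascal]
  rw [show x + 1 - 1 = x by ring, show x + 2 - 1 = x + 1 by ring, show x - 1 + 1 = x by ring,
    show x - 1 + 2 = x + 1 by ring, show y - 1 - 1 = y - 2 by ring, show y + 1 - 1 = y by ring,
    show y - 1 + 1 = y by ring, show z - 2 - 1 = z - 3 by ring, show z - 1 - 1 = z - 2 by ring,
    show z - 1 - 2 = z - 3 by ring]
  ring

lemma Dt_wall1 (m x z : ℤ) : Dt m (x - 1) x z + Dt m (x - 1) (x - 1) z + Dt m (x - 1) x (z - 1) +
    Dt m (x - 1) (x - 1) (z - 1) = 0 := by
  unfold Dt D3
  have e1 := c_pascal (m - 1) (x - 1)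
  have e2 := c_pascal (m - 1) x
  have e3 := c_pascal (m - 1) (x + 1)
  rw [show m - 1 + 1 = m by ring, show x - 1 - 1 = x - 2 by ring] at e1
  rw [show m - 1 + 1 = m by ring] at e2
  rw [show m - 1 + 1 = m by ring, show x + 1 - 1 = x by ring] at e3
  rw [show x - 1 + 1 = x by ring, show x - 1 + 2 = x + 1 by ring, show x - 1 - 1 = x - 2 by ring,
    show z - 1 - 1 = z - 2 by ring, show z - 1 - 2 = z - 3 by ring, e1, e2, e3]
  ring

lemma Dt_wall2 (m x y : ℤ) : Dt m x (y - 1) y + Dt m x (y - 1) (y - 1) = 0 := by
  unfold Dt D3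
  have e1 := c_pascal (m - 2) (y - 2)
  have e2 := c_pascal (m - 2) (y - 1)
  have e3 := c_pascal (m - 2) y
  rw [show m - 2 + 1 = m - 1 by ring, show y - 2 - 1 = y - 3 by ring] at e1
  rw [show m - 2 + 1 = m - 1 by ring, show y - 1 - 1 = y - 2 by ring] at e2
  rw [show m - 2 + 1 = m - 1 by ring] at e3
  rw [show y - 1 + 1 = y by ring, show y - 1 - 1 = y - 2 by ring,
    show y - 1 - 2 = y - 3 by ring, e1, e2, e3]
  ring

lemma stat_lt (D : Fin 3 → Fin 3 → Bool) : ∀ l : List (Fin 3), l ≠ [] → stat D l + 1 ≤ l.length
  | [], h => absurd rfl h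
  | [a], _ => by simp [stat]
  | a :: b :: l, _ => by
    have := stat_lt D (b :: l) (by simp)
    rw [stat_cons]
    simp only [List.length_cons] at this ⊢
    split_ifs <;> omega

lemma length_eq (l : List (Fin 3)) : l.length = l.count 0 + l.count 1 + l.count 2 := by
  induction l with
  | nil => simp
  | cons a l ih =>
    rw [List.length_cons, ih]
    fin_cases a <;> simp <;> omega

lemma Ok.length {x y z : ℤ} {l : List (Fin 3)} (h : Ok x y z l) : (l.length : ℤ) = x + y + z := by
  obtain ⟨-, h1, h2, h3⟩ := h
  rw [length_eq]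
  push_cast
  omega

theorem A_eq_Dt : ∀ (m : ℕ) (M x y z : ℤ), M = x + y + z → (ch x y z ∨ z < 0) →
    A DA m M x y z = Dt m x y z := by
  intro m
  induction m with
  | zero =>
    intro M x y z hM h
    rcases h with h | h
    · by_cases hx : 0 < x
      · have e1 : A DA ((0 : ℕ) : ℤ) M x y z = 0 := by
          unfold A Sm
          refine sum_eq_zero fun l _ => ?_
          split_ifs with hl
          · have h1 := stat_lt DA l (by
              intro h0
              have := hl.2.1
              rw [h0] at this
              simp at this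
              omega)
            have h2 := hl.length
            have e : ((0 : ℕ) : ℤ) + (stat DA l : ℤ) = ((stat DA l : ℕ) : ℤ) := by simp
            show c (((0 : ℕ) : ℤ) + (stat DA l : ℤ)) M = 0
            rw [e, c_nat, fi_neg (k := (stat DA l : ℤ) - M) (by omega)]
            ring
          · rfl
        rw [e1]
        unfold Dt D3
        have f1 : c ((0 : ℕ) : ℤ) x = 0 := by
          rw [c_nat, fi_neg (k := ((0 : ℕ) : ℤ) - x) (by push_cast; omega)]; ring
        have f2 : c ((0 : ℕ) : ℤ) (x + 1) = 0 := by
          rw [c_nat, fi_neg (k := ((0 : ℕ) : ℤ) - (x + 1)) (by push_cast; omega)]; ring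
        have f3 : c ((0 : ℕ) : ℤ) (x + 2) = 0 := by
          rw [c_nat, fi_neg (k := ((0 : ℕ) : ℤ) - (x + 2)) (by push_cast; omega)]; ring
        rw [f1, f2, f3]
        ring
      · obtain ⟨rfl, rfl, rfl⟩ := ch_zero h hx
        rw [A_zero, hM]
        unfold Dt D3
        rw [c_neg _ (k := 0 - 2) (by norm_num), c_neg _ (k := 0 - 1) (by norm_num)]
        simp only [c_zero, add_zero, zero_add]
        rw [c_neg _ (k := 0 - 1) (by norm_num)]
        ring
    · rw [A_out (by unfold ch; omega), Dt_neg h]
  | succ m ih =>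
    intro M x y z hM h
    rcases h with h | h
    · by_cases hx : 0 < x
      · have hc := h
        unfold ch at hc
        have e0 : ((m + 1 : ℕ) : ℤ) = (m : ℤ) + 1 := by push_cast; ring
        rw [e0, A_succ, asc_rec m (M - 1) h hx, Dt_rec]
        rw [show M - 1 - 1 = M - 2 by ring, show M - 1 - 2 = M - 3 by ring]
        have h0 := ih M x y z hM (Or.inl h)
        have h3 := ih (M - 1) x y (z - 1) (by rw [hM]; ring) (by
          by_cases hz : 0 < z
          · left; unfold ch; omega
          · right; omega)
        rw [h0, h3]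
        by_cases hxy : y < x
        · by_cases hyz : z < y
          · rw [if_pos (by unfold ch; omega), if_pos (by unfold ch; omega),
              if_pos (by unfold ch; omega)]
            have h1 := ih (M - 1) (x - 1) y z (by rw [hM]; ring) (by left; unfold ch; omega)
            have h2 := ih (M - 1) x (y - 1) z (by rw [hM]; ring) (by left; unfold ch; omega)
            have h12 := ih (M - 2) (x - 1) (y - 1) z (by rw [hM]; ring)
              (by left; unfold ch; omega)
            have h13 := ih (M - 2) (x - 1) y (z - 1) (by rw [hM]; ring) (by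
              by_cases hz : 0 < z
              · left; unfold ch; omega
              · right; omega)
            have h23 := ih (M - 2) x (y - 1) (z - 1) (by rw [hM]; ring) (by
              by_cases hz : 0 < z
              · left; unfold ch; omega
              · right; omega)
            have h123 := ih (M - 3) (x - 1) (y - 1) (z - 1) (by rw [hM]; ring) (by
              by_cases hz : 0 < z
              · left; unfold ch; omega
              · right; omega)
            rw [h1, h2, h12, h13, h23, h123]
            ring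
          · have : z = y := by omega
            subst this
            rw [if_neg (c := ch x (z - 1) z) (by unfold ch; omega),
              if_pos (c := ch (x - 1) z z) (by unfold ch; omega),
              if_neg (c := ch (x - 1) (z - 1) z) (by unfold ch; omega),
              A_out (x := x) (y := z - 1) (z := z) (by unfold ch; omega),
              A_out (x := x - 1) (y := z - 1) (z := z) (by unfold ch; omega)]
            have h1 := ih (M - 1) (x - 1) z z (by rw [hM]; ring) (by left; unfold ch; omega)
            have h13 := ih (M - 2) (x - 1) z (z - 1) (by rw [hM]; ring) (by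
              by_cases hz : 0 < z
              · left; unfold ch; omega
              · right; omega)
            rw [h1, h13]
            have w1 := Dt_wall2 m x z
            have w2 := Dt_wall2 m (x - 1) z
            linear_combination -w1 - w2
        · have : y = x := by omega
          subst this
          rw [if_neg (c := ch (y - 1) y z) (by unfold ch; omega),
            A_out (x := y - 1) (y := y) (z := z) (by unfold ch; omega)]
          have w1 := Dt_wall1 m y z
          by_cases hyz : z < y
          · rw [if_pos (by unfold ch; omega)]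
            have h2 := ih (M - 1) y (y - 1) z (by rw [hM]; ring) (by left; unfold ch; omega)
            have h23 := ih (M - 2) y (y - 1) (z - 1) (by rw [hM]; ring) (by
              by_cases hz : 0 < z
              · left; unfold ch; omega
              · right; omega)
            rw [h2, h23]
            linear_combination -w1
          · have : z = y := by omega
            subst this
            rw [if_neg (c := ch z (z - 1) z) (by unfold ch; omega),
              A_out (x := z) (y := z - 1) (z := z) (by unfold ch; omega)]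
            have w2 := Dt_wall2 m z z
            linear_combination -w1 - w2
      · obtain ⟨rfl, rfl, rfl⟩ := ch_zero h hx
        rw [A_zero, hM]
        unfold Dt D3
        rw [c_neg _ (k := 0 - 2) (by norm_num), c_neg _ (k := 0 - 1) (by norm_num)]
        simp only [c_zero, add_zero, zero_add]
        rw [c_neg _ (k := 0 - 1) (by norm_num)]
        ring
    · rw [A_out (by unfold ch; omega), Dt_neg h]

theorem Dt_rect (n m : ℕ) : Dt (m + 2) n n n = H n m := by
  unfold Dt D3 H
  have e1 : ((m : ℤ) + 2) = ((m + 2 : ℕ) : ℤ) := by push_cast; ring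
  have e2 : ((m : ℤ) + 2 - 1) = ((m + 1 : ℕ) : ℤ) := by push_cast; ring
  have e3 : ((m : ℤ) + 2 - 2) = ((m : ℕ) : ℤ) := by ring
  rw [e2, e3, e1]
  simp only [c_nat]
  push_cast
  rw [show (m : ℤ) + 2 - n = (m - n) + 2 by ring, show (m : ℤ) + 2 - (n + 1) = (m - n) + 1 by ring,
    show (m : ℤ) + 2 - (n + 2) = (m - n) by ring, show (m : ℤ) + 1 - (n - 1) = (m - n) + 2 by ring,
    show (m : ℤ) + 1 - n = (m - n) + 1 by ring, show (m : ℤ) + 1 - (n + 1) = (m - n) by ring,
    show (m : ℤ) - (n - 2) = (m - n) + 2 by ring, show (m : ℤ) - (n - 1) = (m - n) + 1 by ring]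
  have a1 := fi_succ ((n : ℤ) - 2)
  have a2 := fi_succ ((n : ℤ) - 1)
  have a3 := fi_succ (n : ℤ)
  have a4 := fi_succ ((n : ℤ) + 1)
  rw [show (n : ℤ) - 2 + 1 = n - 1 by ring] at a1
  rw [show (n : ℤ) - 1 + 1 = n by ring] at a2
  rw [show (n : ℤ) + 1 + 1 = n + 2 by ring] at a4
  push_cast at a1 a2 a3 a4
  rw [a1, a2, a3, a4]
  ring

end Q239.Sul
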