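import Mathlib

/-!
# Basic functions for Sulanke's conjecture

`fi k = 1 / k!` (and `0` for negative `k`), the binomial coefficients `c a k` for integers, and
sums over the ballot words (read backwards) with three letters.
-/

open Finset

namespace Q239.Sul

/-- `1 / k!`, and `0` for negative `k` -/
noncomputable def fi (k : ℤ) : ℚ := if 0 ≤ k then 1 / (k.toNat.factorial : ℚ) else 0

lemma fi_neg {k : ℤ} (h : k < 0) : fi k = 0 := by
  unfold fi
  rw [if_neg (by omega)]

lemma fi_nat (k : ℕ) : fi k = 1 / (k.factorial : ℚ) := by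
  unfold fi
  rw [if_pos (by positivity)]
  simp

lemma fi_zero : fi 0 = 1 := by
  have := fi_nat 0
  simpa using this

lemma fi_pred (k : ℤ) : fi (k - 1) = k * fi k := by
  rcases lt_trichotomy k 0 with h | h | h
  · rw [fi_neg h, fi_neg (by omega)]; simp
  · subst h
    rw [fi_neg (by norm_num)]; simp
  · obtain ⟨n, rfl⟩ : ∃ n : ℕ, k = n + 1 := ⟨(k - 1).toNat, by omega⟩
    have h1 : ((n : ℤ) + 1 - 1) = (n : ℤ) := by ring
    have h2 : ((n : ℤ) + 1) = ((n + 1 : ℕ) : ℤ) := by push_cast; ring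
    rw [h1, h2, fi_nat, fi_nat, Nat.factorial_succ]
    have : (n.factorial : ℚ) ≠ 0 := by positivity
    push_cast
    field_simp

lemma fac_mul_fi (n : ℕ) : (n.factorial : ℚ) * fi n = 1 := by
  rw [fi_nat]
  have : (n.factorial : ℚ) ≠ 0 := by positivity
  field_simp

/-- binomial coefficients with integral arguments -/
noncomputable def c (a k : ℤ) : ℚ := if 0 ≤ k then ((Ring.choose a k.toNat : ℤ) : ℚ) else 0

lemma c_neg (a : ℤ) {k : ℤ} (h : k < 0) : c a k = 0 := by
  unfold c
  rw [if_neg (by omega)]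

lemma c_zero (a : ℤ) : c a 0 = 1 := by
  unfold c
  simp

lemma c_pascal (a k : ℤ) : c (a + 1) k = c a k + c a (k - 1) := by
  rcases lt_trichotomy k 0 with h | h | h
  · rw [c_neg _ h, c_neg _ h, c_neg _ (by omega)]; simp
  · subst h
    rw [c_zero, c_zero, c_neg _ (by norm_num)]; simp
  · obtain ⟨n, rfl⟩ : ∃ n : ℕ, k = n + 1 := ⟨(k - 1).toNat, by omega⟩
    unfold c
    rw [if_pos (by omega), if_pos (by omega), if_pos (by omega)]
    have h1 : ((n : ℤ) + 1).toNat = n + 1 := by omega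
    have h2 : ((n : ℤ) + 1 - 1).toNat = n := by omega
    rw [h1, h2, Ring.choose_succ_succ]
    push_cast
    ring

lemma c_nat (m : ℕ) (k : ℤ) : c m k = (m.factorial : ℚ) * fi k * fi (m - k) := by
  rcases lt_or_ge k 0 with h | h
  · rw [c_neg _ h, fi_neg h]; simp
  · obtain ⟨n, rfl⟩ : ∃ n : ℕ, k = n := ⟨k.toNat, by omega⟩
    unfold c
    rw [if_pos h]
    have h1 : ((n : ℤ)).toNat = n := by omega
    rw [h1, Ring.choose_natCast]
    rcases lt_or_ge m n with h2 | h2
    · rw [Nat.choose_eq_zero_of_lt h2, fi_neg (k := (m : ℤ) - n) (by omega)]; simp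
    · have h3 : ((m : ℤ) - n) = ((m - n : ℕ) : ℤ) := by omega
      rw [h3, fi_nat, fi_nat]
      have h4 := Nat.choose_mul_factorial_mul_factorial h2
      have h5 : ((m.choose n : ℕ) : ℚ) * n.factorial * (m - n).factorial = m.factorial := by
        exact_mod_cast h4
      have h6 : (n.factorial : ℚ) ≠ 0 := by positivity
      have h7 : ((m - n).factorial : ℚ) ≠ 0 := by positivity
      push_cast
      field_simp
      linarith

/-! ### words -/

/-- all words of length `N` -/
def L3 : ℕ → Finset (List (Fin 3))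
  | 0 => {[]}
  | N + 1 => (univ : Finset (Fin 3)).biUnion fun a => (L3 N).map ⟨List.cons a, List.cons_injective⟩

lemma mem_L3 : ∀ {N : ℕ} {l : List (Fin 3)}, l ∈ L3 N ↔ l.length = N
  | 0, l => by simp [L3]
  | N + 1, l => by
    rw [L3]
    cases l with
    | nil => simp
    | cons a l =>
      simp only [mem_biUnion, mem_univ, true_and, mem_map, Function.Embedding.coeFn_mk,
        List.cons.injEq, List.length_cons, Nat.add_right_cancel_iff]
      constructor
      · rintro ⟨a', l', h, rfl, rfl⟩; exact mem_L3.mp h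
      · intro h; exact ⟨a, l, mem_L3.mpr h, rfl, rfl⟩

lemma sum_L3 (N : ℕ) (F : List (Fin 3) → ℚ) :
    ∑ l ∈ L3 (N + 1), F l = ∑ a : Fin 3, ∑ l ∈ L3 N, F (a :: l) := by
  rw [L3, sum_biUnion]
  · refine sum_congr rfl fun a _ => ?_
    rw [sum_map]
    rfl
  · intro a _ b _ hab
    rw [Function.onFun, disjoint_left]
    intro l h1 h2
    rw [mem_map] at h1 h2
    obtain ⟨l1, _, h1⟩ := h1
    obtain ⟨l2, _, h2⟩ := h2
    rw [← h2] at h1
    simp only [Function.Embedding.coeFn_mk, List.cons.injEq] at h1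
    exact hab h1.1

/-- the reversed ballot words: in every suffix the letters `0`, `1`, `2` occur in weakly decreasing
numbers -/
def Bal : List (Fin 3) → Prop
  | [] => True
  | a :: l => (a :: l).count 1 ≤ (a :: l).count 0 ∧ (a :: l).count 2 ≤ (a :: l).count 1 ∧ Bal l

instance decBal : (l : List (Fin 3)) → Decidable (Bal l)
  | [] => isTrue trivial
  | a :: l => by
    unfold Bal
    haveI := decBal l
    infer_instance

/-- the number of neighbouring letters `(b, a)`, `a` after `b`, with `D b a`; the last letter is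
the head of the list -/
def stat (D : Fin 3 → Fin 3 → Bool) : List (Fin 3) → ℕ
  | a :: b :: l => (if D b a then 1 else 0) + stat D (b :: l)
  | [_] => 0
  | [] => 0

/-- the chamber -/
def ch (x y z : ℤ) : Prop := y ≤ x ∧ z ≤ y ∧ 0 ≤ z

instance (x y z : ℤ) : Decidable (ch x y z) := by unfold ch; infer_instance

/-- ballot words with given numbers of letters -/
def Ok (x y z : ℤ) (l : List (Fin 3)) : Prop :=
  Bal l ∧ (l.count 0 : ℤ) = x ∧ (l.count 1 : ℤ) = y ∧ (l.count 2 : ℤ) = z

instance (x y z : ℤ) (l : List (Fin 3)) : Decidable (Ok x y z l) := by unfold Ok; infer_instance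

lemma Bal.ch {l : List (Fin 3)} (h : Bal l) : l.count 1 ≤ l.count 0 ∧ l.count 2 ≤ l.count 1 := by
  cases l with
  | nil => simp
  | cons a l => exact ⟨h.1, h.2.1⟩

lemma Ok.ch {x y z : ℤ} {l : List (Fin 3)} (h : Ok x y z l) : ch x y z := by
  obtain ⟨h1, rfl, rfl, rfl⟩ := h
  have := h1.ch
  unfold Sul.ch
  refine ⟨by exact_mod_cast this.1, by exact_mod_cast this.2, by positivity⟩

/-- the sum of `F` over the ballot words with given numbers of letters -/
def Sm (x y z : ℤ) (F : List (Fin 3) → ℚ) : ℚ :=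
  ∑ l ∈ L3 (x + y + z).toNat, if Ok x y z l then F l else 0

lemma Sm_out {x y z : ℤ} (h : ¬ ch x y z) (F : List (Fin 3) → ℚ) : Sm x y z F = 0 := by
  unfold Sm
  refine sum_eq_zero fun l _ => if_neg fun h' => h h'.ch

lemma Sm_congr {x y z : ℤ} {F G : List (Fin 3) → ℚ} (h : ∀ l, Ok x y z l → F l = G l) :
    Sm x y z F = Sm x y z G := by
  unfold Sm
  refine sum_congr rfl fun l _ => ?_
  by_cases h1 : Ok x y z l
  · rw [if_pos h1, if_pos h1, h l h1]
  · rw [if_neg h1, if_neg h1]

lemma Sm_add (x y z : ℤ) (F G : List (Fin 3) → ℚ) :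
    Sm x y z (fun l => F l + G l) = Sm x y z F + Sm x y z G := by
  unfold Sm
  rw [← sum_add_distrib]
  refine sum_congr rfl fun l _ => ?_
  split_ifs <;> simp

lemma Sm_sub (x y z : ℤ) (F G : List (Fin 3) → ℚ) :
    Sm x y z (fun l => F l - G l) = Sm x y z F - Sm x y z G := by
  unfold Sm
  rw [← sum_sub_distrib]
  refine sum_congr rfl fun l _ => ?_
  split_ifs <;> simp

lemma Sm_zero (F : List (Fin 3) → ℚ) : Sm 0 0 0 F = F [] := by
  unfold Sm
  simp [L3, Ok, Bal]

lemma bal_cons (a : Fin 3) (l : List (Fin 3)) : Bal (a :: l) ↔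
    (a :: l).count 1 ≤ (a :: l).count 0 ∧ (a :: l).count 2 ≤ (a :: l).count 1 ∧ Bal l := Iff.rfl

lemma ok_cons0 {x y z : ℤ} (h : ch x y z) (l : List (Fin 3)) :
    Ok x y z (0 :: l) ↔ Ok (x - 1) y z l := by
  unfold Ok
  unfold ch at h
  simp only [bal_cons, List.count_cons_self, ne_eq, show (0 : Fin 3) ≠ 1 by decide,
    show (0 : Fin 3) ≠ 2 by decide, not_false_eq_true, List.count_cons_of_ne]
  constructor
  · rintro ⟨⟨h1, h2, h3⟩, h4, h5, h6⟩
    refine ⟨h3, ?_, h5, h6⟩
    push_cast at h4; omega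
  · rintro ⟨h3, h4, h5, h6⟩
    refine ⟨⟨?_, ?_, h3⟩, ?_, h5, h6⟩
    · omega
    · omega
    · push_cast; omega

lemma ok_cons1 {x y z : ℤ} (h : ch x y z) (l : List (Fin 3)) :
    Ok x y z (1 :: l) ↔ Ok x (y - 1) z l := by
  unfold Ok
  unfold ch at h
  simp only [bal_cons, List.count_cons_self, ne_eq, show (1 : Fin 3) ≠ 0 by decide,
    show (1 : Fin 3) ≠ 2 by decide, not_false_eq_true, List.count_cons_of_ne]
  constructor
  · rintro ⟨⟨h1, h2, h3⟩, h4, h5, h6⟩
    refine ⟨h3, h4, ?_, h6⟩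
    push_cast at h5; omega
  · rintro ⟨h3, h4, h5, h6⟩
    refine ⟨⟨?_, ?_, h3⟩, h4, ?_, h6⟩
    · omega
    · omega
    · push_cast; omega

lemma ok_cons2 {x y z : ℤ} (h : ch x y z) (l : List (Fin 3)) :
    Ok x y z (2 :: l) ↔ Ok x y (z - 1) l := by
  unfold Ok
  unfold ch at h
  simp only [bal_cons, List.count_cons_self, ne_eq, show (2 : Fin 3) ≠ 0 by decide,
    show (2 : Fin 3) ≠ 1 by decide, not_false_eq_true, List.count_cons_of_ne]
  constructor
  · rintro ⟨⟨h1, h2, h3⟩, h4, h5, h6⟩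
    refine ⟨h3, h4, h5, ?_⟩
    push_cast at h6; omega
  · rintro ⟨h3, h4, h5, h6⟩
    refine ⟨⟨?_, ?_, h3⟩, h4, h5, ?_⟩
    · omega
    · omega
    · push_cast; omega

lemma Sm_succ {x y z : ℤ} (h : ch x y z) (h0 : 0 < x) (F : List (Fin 3) → ℚ) :
    Sm x y z F = Sm (x - 1) y z (fun l => F (0 :: l)) + Sm x (y - 1) z (fun l => F (1 :: l)) +
      Sm x y (z - 1) (fun l => F (2 :: l)) := by
  have hc := h
  unfold ch at hc
  have e : (x + y + z).toNat = (x - 1 + y + z).toNat + 1 := by omega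
  have e1 : (x + (y - 1) + z).toNat = (x - 1 + y + z).toNat := by congr 1; ring
  have e2 : (x + y + (z - 1)).toNat = (x - 1 + y + z).toNat := by congr 1; ring
  unfold Sm
  rw [e, e1, e2, sum_L3, Fin.sum_univ_three]
  congr 1
  · congr 1
    · exact sum_congr rfl fun l _ => by simp only [ok_cons0 h]
    · exact sum_congr rfl fun l _ => by simp only [ok_cons1 h]
  · exact sum_congr rfl fun l _ => by simp only [ok_cons2 h]

end Q239.Sul
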