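import Pool.Agent.Q239.Sul.Equi

/-!
# Tableaux and ballot words
-/

open Finset

namespace Q239.Sul

/-- the reversed word of the letters `R 1, ..., R k` -/
def wd (R : ℕ → Fin 3) : ℕ → List (Fin 3)
  | 0 => []
  | k + 1 => R (k + 1) :: wd R k

lemma wd_length (R : ℕ → Fin 3) (k : ℕ) : (wd R k).length = k := by
  induction k with
  | zero => rfl
  | succ k ih => rw [wd, List.length_cons, ih]

lemma wd_count (R : ℕ → Fin 3) (k : ℕ) (r : Fin 3) :
    (wd R k).count r = ((Icc 1 k).filter fun i => R i = r).card := by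
  induction k with
  | zero => simp [wd]
  | succ k ih =>
    rw [wd, List.count_cons, ih, ← insert_Icc_right_eq_Icc_add_one (by omega), filter_insert]
    by_cases h : R (k + 1) = r
    · rw [if_pos h, card_insert_of_notMem]
      · simp [h]
      · simp
    · rw [if_neg h]
      simp [h]

lemma wd_bal (R : ℕ → Fin 3) (k : ℕ) : Bal (wd R k) ↔ ∀ j ≤ k,
    (wd R j).count 1 ≤ (wd R j).count 0 ∧ (wd R j).count 2 ≤ (wd R j).count 1 := by
  induction k with
  | zero =>
    constructor
    · intro _ j hj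
      have : j = 0 := by omega
      subst this
      simp [wd]
    · intro _
      trivial
  | succ k ih =>
    rw [wd, bal_cons, ih]
    constructor
    · rintro ⟨h1, h2, h3⟩ j hj
      rcases Nat.lt_or_ge j (k + 1) with h | h
      · exact h3 j (by omega)
      · have : j = k + 1 := by omega
        subst this
        exact ⟨h1, h2⟩
    · intro h
      exact ⟨(h (k + 1) le_rfl).1, (h (k + 1) le_rfl).2, fun j hj => h j (by omega)⟩

lemma wd_stat (D : Fin 3 → Fin 3 → Bool) (R : ℕ → Fin 3) (k : ℕ) :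
    stat D (wd R k) = ((Ico 1 k).filter fun i => D (R i) (R (i + 1)) = true).card := by
  induction k with
  | zero => simp [wd, stat]
  | succ k ih =>
    cases k with
    | zero => simp [wd, stat]
    | succ k =>
      have e : wd R (k + 1 + 1) = R (k + 1 + 1) :: R (k + 1) :: wd R k := rfl
      have e2 : wd R (k + 1) = R (k + 1) :: wd R k := rfl
      have e3 : Ico 1 (k + 1 + 1) = insert (k + 1) (Ico 1 (k + 1)) := by
        ext i
        simp only [mem_Ico, mem_insert]
        omega
      rw [e, stat_cons, ← e2, ih, e3, filter_insert]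
      split_ifs with h
      · rw [card_insert_of_notMem (by simp)]
        ring
      · ring

lemma wd_congr {R R' : ℕ → Fin 3} {k : ℕ} (h : ∀ i, 1 ≤ i → i ≤ k → R i = R' i) :
    wd R k = wd R' k := by
  induction k with
  | zero => rfl
  | succ k ih =>
    rw [wd, wd, h (k + 1) (by omega) le_rfl, ih fun i h1 h2 => h i h1 (by omega)]

lemma wd_inj {R R' : ℕ → Fin 3} {k : ℕ} (h : wd R k = wd R' k) : ∀ i, 1 ≤ i → i ≤ k →
    R i = R' i := by
  induction k with
  | zero => intro i h1 h2; omega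
  | succ k ih =>
    rw [wd, wd, List.cons.injEq] at h
    intro i h1 h2
    rcases Nat.lt_or_ge i (k + 1) with h3 | h3
    · exact ih h.2 i h1 (by omega)
    · have : i = k + 1 := by omega
      subst this
      exact h.1

lemma wd_surj : ∀ (k : ℕ) (l : List (Fin 3)), l.length = k → ∃ R : ℕ → Fin 3, wd R k = l
  | 0, l, h => ⟨fun _ => 0, by rw [List.length_eq_zero_iff.mp h]; rfl⟩
  | k + 1, l, h => by
    cases l with
    | nil => simp at h
    | cons a l =>
      obtain ⟨R, hR⟩ := wd_surj k l (by simpa using h)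
      refine ⟨Function.update R (k + 1) a, ?_⟩
      rw [wd, Function.update_self, ← hR]
      congr 1
      apply wd_congr
      intro i _ h2
      rw [Function.update_of_ne (by omega)]

/-- `T` is a standard Young tableau with `3` rows and `n` columns -/
structure IsSYT (n : ℕ) (T : Fin 3 → Fin n → ℕ) : Prop where
  row : ∀ r, StrictMono (T r)
  col : ∀ c, StrictMono fun r => T r c
  entries : Set.BijOn (fun p : Fin 3 × Fin n => T p.1 p.2) Set.univ (Set.Icc 1 (3 * n))

open Classical in
/-- the row of an entry -/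
noncomputable def rw' {n : ℕ} (T : Fin 3 → Fin n → ℕ) (i : ℕ) : Fin 3 :=
  if h : ∃ r c, T r c = i then h.choose else 0

variable {n : ℕ} {T : Fin 3 → Fin n → ℕ}

lemma IsSYT.inj (hT : IsSYT n T) {r s : Fin 3} {c d : Fin n} (h : T r c = T s d) :
    r = s ∧ c = d := by
  have := hT.entries.injOn (Set.mem_univ (r, c)) (Set.mem_univ (s, d)) h
  simpa using this

lemma rw_eq (hT : IsSYT n T) {i : ℕ} (r : Fin 3) (h1 : 1 ≤ i) (h2 : i ≤ 3 * n) :
    rw' T i = r ↔ ∃ c, T r c = i := by
  have hex : ∃ r c, T r c = i := by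
    obtain ⟨⟨r, c⟩, -, h⟩ := hT.entries.surjOn (Set.mem_Icc.mpr ⟨h1, h2⟩)
    exact ⟨r, c, h⟩
  unfold rw'
  rw [dif_pos hex]
  obtain ⟨c, hc⟩ := hex.choose_spec
  constructor
  · rintro rfl
    exact ⟨c, hc⟩
  · rintro ⟨d, hd⟩
    exact (hT.inj (hc.trans hd.symm)).1

lemma mem_range_T (hT : IsSYT n T) (r : Fin 3) (c : Fin n) : 1 ≤ T r c ∧ T r c ≤ 3 * n :=
  hT.entries.mapsTo (Set.mem_univ (r, c))

lemma filter_eq (hT : IsSYT n T) (r : Fin 3) {k : ℕ} (hk : k ≤ 3 * n) :
    ((Icc 1 k).filter fun i => rw' T i = r) =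
      ((univ : Finset (Fin n)).filter fun c => T r c ≤ k).image (T r) := by
  ext i
  rw [mem_filter, mem_Icc, mem_image]
  constructor
  · rintro ⟨⟨h1, h2⟩, h3⟩
    obtain ⟨c, hc⟩ := (rw_eq hT r h1 (by omega)).mp h3
    exact ⟨c, by rw [mem_filter]; exact ⟨mem_univ _, by omega⟩, hc⟩
  · rintro ⟨c, hc, rfl⟩
    have h1 := mem_range_T hT r c
    rw [mem_filter] at hc
    exact ⟨⟨h1.1, hc.2⟩, (rw_eq hT r h1.1 h1.2).mpr ⟨c, rfl⟩⟩

lemma card_eq (hT : IsSYT n T) (r : Fin 3) {k : ℕ} (hk : k ≤ 3 * n) :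
    ((Icc 1 k).filter fun i => rw' T i = r).card =
      ((univ : Finset (Fin n)).filter fun c => T r c ≤ k).card := by
  rw [filter_eq hT r hk, card_image_of_injective _ (hT.row r).injective]

/-- the word of a tableau -/
noncomputable def word (T : Fin 3 → Fin n → ℕ) : List (Fin 3) := wd (rw' T) (3 * n)

lemma word_mem (hT : IsSYT n T) : word T ∈ WW n := by
  rw [mem_WW]
  unfold word
  have hfull : ∀ r : Fin 3, (wd (rw' T) (3 * n)).count r = n := by
    intro r
    rw [wd_count, card_eq hT r le_rfl, filter_true_of_mem, card_univ, Fintype.card_fin]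
    intro c _
    exact (mem_range_T hT r c).2
  refine ⟨?_, hfull 0, hfull 1, hfull 2⟩
  rw [wd_bal]
  intro j hj
  simp only [wd_count]
  rw [card_eq hT 0 hj, card_eq hT 1 hj, card_eq hT 2 hj]
  constructor
  · apply card_le_card
    intro c hc
    rw [mem_filter] at hc ⊢
    have := hT.col c (show (0 : Fin 3) < 1 by decide)
    exact ⟨mem_univ _, by simp only at this; omega⟩
  · apply card_le_card
    intro c hc
    rw [mem_filter] at hc ⊢
    have := hT.col c (show (1 : Fin 3) < 2 by decide)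
    exact ⟨mem_univ _, by simp only at this; omega⟩

lemma word_inj {T T' : Fin 3 → Fin n → ℕ} (hT : IsSYT n T) (hT' : IsSYT n T')
    (h : word T = word T') : T = T' := by
  have h1 := wd_inj h
  funext r
  rw [← (hT.row r).range_inj (hT'.row r)]
  ext i
  constructor
  · rintro ⟨c, rfl⟩
    have h2 := mem_range_T hT r c
    have h3 := (rw_eq hT r h2.1 h2.2).mpr ⟨c, rfl⟩
    rw [h1 _ h2.1 h2.2] at h3
    exact (rw_eq hT' r h2.1 h2.2).mp h3
  · rintro ⟨c, rfl⟩
    have h2 := mem_range_T hT' r c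
    have h3 := (rw_eq hT' r h2.1 h2.2).mpr ⟨c, rfl⟩
    rw [← h1 _ h2.1 h2.2] at h3
    exact (rw_eq hT r h2.1 h2.2).mp h3

/-- a column inequality from the ballot condition -/
lemma col_lt {S S' : Finset ℕ} (hS : S.card = n) (hS' : S'.card = n) (hd : Disjoint S S')
    (h : ∀ k, (S'.filter fun i => i ≤ k).card ≤ (S.filter fun i => i ≤ k).card) (a : Fin n) :
    S.orderEmbOfFin hS a < S'.orderEmbOfFin hS' a := by
  set k := S'.orderEmbOfFin hS' a with hk
  have h1 : (a : ℕ) + 1 ≤ (S'.filter fun i => i ≤ k).card := by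
    have e : ((univ : Finset (Fin n)).filter fun b => b ≤ a).card = a + 1 := by
      rw [show ((univ : Finset (Fin n)).filter fun b => b ≤ a) = Iic a by ext; simp]
      rw [Fin.card_Iic]
    rw [← e, ← card_image_of_injective _ (S'.orderEmbOfFin hS').injective]
    apply card_le_card
    intro i hi
    rw [mem_image] at hi
    obtain ⟨b, hb, rfl⟩ := hi
    rw [mem_filter] at hb ⊢
    exact ⟨orderEmbOfFin_mem _ _ _, (S'.orderEmbOfFin hS').monotone hb.2⟩
  have h2 := h1.trans (h k)
  by_contra hcon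
  push Not at hcon
  have hne : S.orderEmbOfFin hS a ≠ k := by
    intro h0
    have m1 : k ∈ S := by rw [← h0]; exact orderEmbOfFin_mem _ _ _
    have m2 : k ∈ S' := orderEmbOfFin_mem _ _ _
    exact (disjoint_left.mp hd) m1 m2
  have hlt : k < S.orderEmbOfFin hS a := lt_of_le_of_ne hcon (Ne.symm hne)
  have h3 : (S.filter fun i => i ≤ k).card ≤ a := by
    have e : ((univ : Finset (Fin n)).filter fun b => b < a).card = a := by
      rw [show ((univ : Finset (Fin n)).filter fun b => b < a) = Iio a by ext; simp]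
      rw [Fin.card_Iio]
    refine le_of_le_of_eq ?_ e
    rw [← card_image_of_injective _ (S.orderEmbOfFin hS).injective]
    apply card_le_card
    intro i hi
    rw [mem_filter] at hi
    obtain ⟨b, hb⟩ : ∃ b, S.orderEmbOfFin hS b = i := by
      have : i ∈ Set.range (S.orderEmbOfFin hS) := by
        rw [range_orderEmbOfFin]
        exact hi.1
      exact this
    rw [mem_image]
    refine ⟨b, ?_, hb⟩
    rw [mem_filter]
    refine ⟨mem_univ _, ?_⟩
    by_contra hba
    push Not at hba
    have := (S.orderEmbOfFin hS).monotone hba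
    omega
  omega

lemma word_surj {l : List (Fin 3)} (hl : l ∈ WW n) : ∃ T : Fin 3 → Fin n → ℕ,
    IsSYT n T ∧ word T = l := by
  obtain ⟨R, hR⟩ := wd_surj (3 * n) l (mem_L3.mp (mem_filter.mp hl).1)
  obtain ⟨hB, c0, c1, c2⟩ := mem_WW.mp hl
  set S : Fin 3 → Finset ℕ := fun r => (Icc 1 (3 * n)).filter fun i => R i = r with hSdef
  have hS : ∀ r, (S r).card = n := by
    intro r
    simp only [hSdef]
    rw [← wd_count, hR]
    fin_cases r
    · exact c0
    · exact c1
    · exact c2
  have hdis : ∀ r s, r ≠ s → Disjoint (S r) (S s) := by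
    intro r s hrs
    rw [disjoint_left]
    intro i h1 h2
    simp only [hSdef, mem_filter] at h1 h2
    exact hrs (h1.2.symm.trans h2.2)
  have hfil : ∀ r k, ((S r).filter fun i => i ≤ k).card = (wd R (min k (3 * n))).count r := by
    intro r k
    rw [wd_count]
    congr 1
    ext i
    simp only [hSdef, mem_filter, mem_Icc]
    constructor
    · rintro ⟨⟨⟨h1, h2⟩, h3⟩, h4⟩
      exact ⟨⟨h1, by omega⟩, h3⟩
    · rintro ⟨⟨h1, h2⟩, h3⟩
      exact ⟨⟨⟨h1, by omega⟩, h3⟩, by omega⟩
  have hbal := (wd_bal R (3 * n)).mp (by rw [hR]; exact hB)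
  set T : Fin 3 → Fin n → ℕ := fun r c => (S r).orderEmbOfFin (hS r) c with hTdef
  have hmem : ∀ r c, T r c ∈ S r := fun r c => orderEmbOfFin_mem _ _ _
  have h01 : ∀ c, T 0 c < T 1 c := by
    intro c
    refine col_lt (hS 0) (hS 1) (hdis 0 1 (by decide)) ?_ c
    intro k
    rw [hfil, hfil]
    exact (hbal _ (min_le_right _ _)).1
  have h12 : ∀ c, T 1 c < T 2 c := by
    intro c
    refine col_lt (hS 1) (hS 2) (hdis 1 2 (by decide)) ?_ c
    intro k
    rw [hfil, hfil]
    exact (hbal _ (min_le_right _ _)).2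
  have hT : IsSYT n T := by
    refine ⟨fun r => (orderEmbOfFin (S r) (hS r)).strictMono, ?_, ?_, ?_, ?_⟩
    · intro c r s hrs
      show T r c < T s c
      have := h01 c
      have := h12 c
      fin_cases r <;> fin_cases s <;> simp at hrs ⊢ <;> omega
    · rintro ⟨r, c⟩ _
      have := hmem r c
      simp only [hSdef, mem_filter, mem_Icc] at this
      exact ⟨this.1.1, this.1.2⟩
    · rintro ⟨r, c⟩ _ ⟨s, d⟩ _ h
      have h : T r c = T s d := h
      have hrs : r = s := by
        by_contra hne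
        exact (disjoint_left.mp (hdis r s hne)) (hmem r c) (by rw [h]; exact hmem s d)
      subst hrs
      have := (orderEmbOfFin (S r) (hS r)).injective h
      rw [this]
    · intro i hi
      have hi' : i ∈ S (R i) := by
        simp only [hSdef, mem_filter, mem_Icc]
        exact ⟨⟨hi.1, hi.2⟩, trivial⟩
      have : i ∈ Set.range (orderEmbOfFin (S (R i)) (hS (R i))) := by
        rw [range_orderEmbOfFin]
        exact hi'
      obtain ⟨c, hc⟩ := this
      exact ⟨(R i, c), Set.mem_univ _, hc⟩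
  refine ⟨T, hT, ?_⟩
  rw [← hR]
  unfold word
  apply wd_congr
  intro i h1 h2
  rw [rw_eq hT _ h1 h2]
  have hi' : i ∈ S (R i) := by
    simp only [hSdef, mem_filter, mem_Icc]
    exact ⟨⟨h1, h2⟩, trivial⟩
  have : i ∈ Set.range (orderEmbOfFin (S (R i)) (hS (R i))) := by
    rw [range_orderEmbOfFin]
    exact hi'
  exact this

/-- pairs of consecutive entries in given rows -/
lemma pairs_eq (hT : IsSYT n T) (P : Fin 3 → Fin 3 → Prop) :
    {i : ℕ | ∃ r s, P r s ∧ (∃ c, T r c = i) ∧ ∃ c, T s c = i + 1} =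
      {i : ℕ | i ∈ Ico 1 (3 * n) ∧ P (rw' T i) (rw' T (i + 1))} := by
  ext i
  simp only [Set.mem_ofPred_eq]
  constructor
  · rintro ⟨r, s, hP, ⟨c, hc⟩, ⟨d, hd⟩⟩
    have h1 := mem_range_T hT r c
    have h2 := mem_range_T hT s d
    have e1 := (rw_eq hT r (i := i) (by omega) (by omega)).mpr ⟨c, hc⟩
    have e2 := (rw_eq hT s (i := i + 1) (by omega) (by omega)).mpr ⟨d, hd⟩
    refine ⟨mem_Ico.mpr ⟨by omega, by omega⟩, ?_⟩
    rw [e1, e2]
    exact hP
  · rintro ⟨hi, hP⟩
    rw [mem_Ico] at hi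
    refine ⟨_, _, hP, (rw_eq hT _ (by omega) (by omega)).mp rfl,
      (rw_eq hT _ (by omega) (by omega)).mp rfl⟩

lemma pairs_stat (hT : IsSYT n T) (D : Fin 3 → Fin 3 → Bool) :
    {i : ℕ | ∃ r s, D r s = true ∧ (∃ c, T r c = i) ∧ ∃ c, T s c = i + 1}.ncard =
      stat D (word T) := by
  rw [pairs_eq hT (fun r s => D r s = true)]
  unfold word
  rw [wd_stat]
  rw [← Set.ncard_coe_finset]
  congr 1
  ext i
  simp

end Q239.Sul
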