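import Pool.Agent.Q239.Sul.Rec

/-!
# The closed form for the first statistic
-/

open Finset

namespace Q239.Sul

lemma A_succ (D : Fin 3 → Fin 3 → Bool) (m M x y z : ℤ) :
    A D (m + 1) M x y z = A D m M x y z + A D m (M - 1) x y z := by
  unfold A
  rw [← Sm_add]
  refine Sm_congr fun l _ => ?_
  rw [← c_succ]
  congr 1
  ring

theorem A_i (m M : ℤ) {x y z : ℤ} (h : ch x y z) (hx : 0 < x) (hy : z < y) :
    A DS m M x y z = A DS m M (x - 1) y z + A DS (m + 1) M x (y - 1) z + A DS m M x y (z - 1) +
      A DS m (M - 2) (x - 1) (y - 1) (z - 1) := by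
  have hc := h
  unfold ch at hc
  rw [A_split DS m M hx, S0 m M h, S1 m M h, S2 m M h]
  by_cases hz : 0 < z
  · have h1 : ch x (y - 1) z := by unfold ch; omega
    have h2 : ch x y (z - 1) := by unfold ch; omega
    have h3 : ch x (y - 1) (z - 1) := by unfold ch; omega
    rw [S2 m (M - 1) h1, S1 m (M - 1) h2]
    have e1 : M - 1 - 1 = M - 2 := by ring
    rw [e1]
    have e2 := A_succ DS m (M - 1) x (y - 1) (z - 1)
    rw [e1] at e2
    have e3 := A_split DS m (M - 2) (y := y - 1) (z := z - 1) hx
    rw [S0 m (M - 2) h3] at e3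
    rw [e2, e3]
    ring
  · have hz0 : z = 0 := by omega
    subst hz0
    have h1 : ch x (y - 1) 0 := by unfold ch; omega
    rw [S2 m (M - 1) h1]
    rw [A_out (x := x) (y := y - 1) (z := 0 - 1) (by unfold ch; omega),
      Aj_out (x := x) (y := y - 1) (z := 0 - 1) (by unfold ch; omega),
      A_out (x := x) (y := y) (z := 0 - 1) (by unfold ch; omega),
      Aj_out (x := x) (y := y) (z := 0 - 1) (by unfold ch; omega),
      A_out (x := x - 1) (y := y - 1) (z := 0 - 1) (by unfold ch; omega)]
    ring

theorem A_ii (m M : ℤ) {x y : ℤ} (h : ch x y y) (hy : 1 ≤ y) :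
    A DS m M x y y = A DS m M (x - 1) y y + A DS m (M - 1) x (y - 1) (y - 1) +
      A DS m M x y (y - 1) + A DS m (M - 2) (x - 1) (y - 1) (y - 1) := by
  have hc := h
  unfold ch at hc
  have hx : 0 < x := by omega
  rw [A_split DS m M hx, S0 m M h, S1 m M h, S2 m M h]
  have h2 : ch x y (y - 1) := by unfold ch; omega
  have h3 : ch x (y - 1) (y - 1) := by unfold ch; omega
  rw [A_out (x := x) (y := y - 1) (z := y) (by unfold ch; omega),
      Aj_out (x := x) (y := y - 1) (z := y) (by unfold ch; omega), S1 m (M - 1) h2]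
  have e1 : M - 1 - 1 = M - 2 := by ring
  rw [e1]
  have e2 := A_succ DS m (M - 1) x (y - 1) (y - 1)
  rw [e1] at e2
  have e3 := A_split DS m (M - 2) (y := y - 1) (z := y - 1) hx
  rw [S0 m (M - 2) h3, S1 m (M - 2) h3,
    A_out (x := x) (y := y - 1 - 1) (z := y - 1) (by unfold ch; omega),
    Aj_out (x := x) (y := y - 1 - 1) (z := y - 1) (by unfold ch; omega)] at e3
  have e4 : Aj DS 2 m (M - 2) x (y - 1) (y - 1) = A DS m (M - 2) x (y - 1) (y - 1) -
      A DS m (M - 2) (x - 1) (y - 1) (y - 1) := by
    rw [e3]; ring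
  rw [e2, e4]
  ring

/-! ### the number of ballot words -/

/-- the hook formula -/
noncomputable def g (x y z : ℤ) : ℚ :=
  ((x + y + z).toNat.factorial : ℚ) * ((x - y + 1) * (x - z + 2) * (y - z + 1)) *
    (fi (x + 2) * fi (y + 1) * fi z)

/-- the number of ballot words -/
noncomputable def f (x y z : ℤ) : ℚ := if ch x y z then g x y z else 0

lemma f_out {x y z : ℤ} (h : ¬ ch x y z) : f x y z = 0 := by
  unfold f
  rw [if_neg h]

lemma f_zero : f 0 0 0 = 1 := by
  unfold f g
  rw [if_pos (by unfold ch; omega)]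
  have h1 : fi (0 + 2) = 1 / 2 := by
    have := fi_nat 2
    norm_num at this ⊢
    exact this
  have h2 : fi (0 + 1) = 1 := by
    have := fi_nat 1
    norm_num at this ⊢
    exact this
  rw [h1, h2, fi_zero]
  norm_num

lemma g_rec {x y z : ℤ} (h : ch x y z) (hx : 0 < x) :
    g x y z = g (x - 1) y z + g x (y - 1) z + g x y (z - 1) := by
  unfold ch at h
  obtain ⟨n, hn⟩ : ∃ n : ℕ, x + y + z = n + 1 := ⟨(x + y + z - 1).toNat, by omega⟩
  have e0 : (x + y + z).toNat = n + 1 := by omega
  have e1 : (x - 1 + y + z).toNat = n := by omega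
  have e2 : (x + (y - 1) + z).toNat = n := by omega
  have e3 : (x + y + (z - 1)).toNat = n := by omega
  unfold g
  rw [e0, e1, e2, e3, Nat.factorial_succ]
  have f1 : fi (x - 1 + 2) = (x + 2) * fi (x + 2) := by
    have := fi_pred (x + 2)
    rw [show x + 2 - 1 = x - 1 + 2 by ring] at this
    rw [this]; push_cast; ring
  have f2 : fi (y - 1 + 1) = (y + 1) * fi (y + 1) := by
    have := fi_pred (y + 1)
    rw [show y + 1 - 1 = y - 1 + 1 by ring] at this
    rw [this]; push_cast; ring
  rw [f1, f2, fi_pred z]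
  have hn' : ((n : ℚ) + 1) = x + y + z := by exact_mod_cast hn.symm
  push_cast
  rw [hn']
  ring

lemma f_rec {x y z : ℤ} (h : ch x y z) (hx : 0 < x) :
    f x y z = f (x - 1) y z + f x (y - 1) z + f x y (z - 1) := by
  have h0 : f x y z = g x y z := by unfold f; rw [if_pos h]
  have h1 : f (x - 1) y z = g (x - 1) y z := by
    unfold f
    split_ifs with h'
    · rfl
    · have : x = y := by unfold ch at h h'; omega
      subst this
      unfold g
      push_cast
      ring
  have h2 : f x (y - 1) z = g x (y - 1) z := by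
    unfold f
    split_ifs with h'
    · rfl
    · have : y = z := by unfold ch at h h'; omega
      subst this
      unfold g
      push_cast
      ring
  have h3 : f x y (z - 1) = g x y (z - 1) := by
    unfold f
    split_ifs with h'
    · rfl
    · have : z = 0 := by unfold ch at h h'; omega
      subst this
      unfold g
      rw [fi_neg (k := (0 : ℤ) - 1) (by norm_num)]
      ring
  rw [h0, h1, h2, h3]
  exact g_rec h hx

/-! ### the closed form -/

noncomputable def R (K : ℕ) (m M x y z : ℤ) : ℚ :=
  ∑ i ∈ range K, c (m + y - i) (M - 2 * i) * c (x + y + z - 2 * i) i * f (x - i) (y - i) (z - i)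

lemma R_out {K : ℕ} {m M x y z : ℤ} (h : x < y ∨ y < z ∨ z < 0) : R K m M x y z = 0 := by
  unfold R
  refine sum_eq_zero fun i _ => ?_
  rw [f_out (by unfold ch; omega), mul_zero]

lemma fterm {x y z : ℤ} (h : ch x y z) (hx : 0 < x) (i : ℕ) :
    c (x + y + z - 1 - 2 * i) i * f (x - i) (y - i) (z - i) = c (x + y + z - 1 - 2 * i) i *
      (f (x - 1 - i) (y - i) (z - i) + f (x - i) (y - 1 - i) (z - i) +
        f (x - i) (y - i) (z - 1 - i)) := by
  unfold ch at h
  by_cases h1 : (i : ℤ) ≤ z
  · by_cases h2 : (i : ℤ) < x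
    · have h3 : ch (x - i) (y - i) (z - i) := by unfold ch; omega
      have h4 := f_rec h3 (by omega)
      rw [h4]
      congr 2
      · congr 1
        · congr 1; ring
        · congr 1; ring
      · congr 1; ring
    · have e1 : x = i := by omega
      have e2 : y = i := by omega
      have e3 : z = i := by omega
      obtain ⟨j, hj⟩ : ∃ j : ℕ, i = j + 1 := ⟨i - 1, by omega⟩
      have e4 : x + y + z - 1 - 2 * i = (j : ℤ) := by omega
      rw [e4, c_nat, fi_neg (k := (j : ℤ) - i) (by omega)]
      ring
  · rw [f_out (by unfold ch; omega), f_out (by unfold ch; omega), f_out (by unfold ch; omega),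
      f_out (by unfold ch; omega)]
    ring

lemma R_rec {K : ℕ} (m M : ℤ) {x y z : ℤ} (h : ch x y z) (hx : 0 < x) (hz : z < K) :
    R K m M x y z = R K m M (x - 1) y z + R K (m + 1) M x (y - 1) z + R K m M x y (z - 1) +
      R K m (M - 2) (x - 1) (y - 1) (z - 1) := by
  have hp : ∀ i : ℕ, c (m + y - i) (M - 2 * i) * c (x + y + z - 2 * i) i *
      f (x - i) (y - i) (z - i) =
      (c (m + y - i) (M - 2 * i) * c (x - 1 + y + z - 2 * i) i * f (x - 1 - i) (y - i) (z - i) +
       c (m + 1 + (y - 1) - i) (M - 2 * i) * c (x + (y - 1) + z - 2 * i) i *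
        f (x - i) (y - 1 - i) (z - i) +
       c (m + y - i) (M - 2 * i) * c (x + y + (z - 1) - 2 * i) i *
        f (x - i) (y - i) (z - 1 - i)) +
      c (m + y - i) (M - 2 * i) * c (x + y + z - 1 - 2 * i) (i - 1) *
        f (x - i) (y - i) (z - i) := by
    intro i
    have e1 := c_pascal (x + y + z - 1 - 2 * i) i
    have e2 : x + y + z - 1 - 2 * (i : ℤ) + 1 = x + y + z - 2 * i := by ring
    rw [e2] at e1
    have e3 : x - 1 + y + z - 2 * (i : ℤ) = x + y + z - 1 - 2 * i := by ring
    have e4 : x + (y - 1) + z - 2 * (i : ℤ) = x + y + z - 1 - 2 * i := by ring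
    have e5 : x + y + (z - 1) - 2 * (i : ℤ) = x + y + z - 1 - 2 * i := by ring
    have e6 : m + 1 + (y - 1) - (i : ℤ) = m + y - i := by ring
    rw [e1, e3, e4, e5, e6]
    linear_combination c (m + y - i) (M - 2 * i) * fterm h hx i
  have hq : ∑ i ∈ range K, c (m + y - i) (M - 2 * i) * c (x + y + z - 1 - 2 * i) (i - 1) *
        f (x - i) (y - i) (z - i) = R K m (M - 2) (x - 1) (y - 1) (z - 1) := by
    set G : ℕ → ℚ := fun i => c (m + y - i) (M - 2 * i) * c (x + y + z - 1 - 2 * i) (i - 1) *
        f (x - i) (y - i) (z - i) with hG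
    have h0 : G 0 = 0 := by
      simp only [hG]
      rw [c_neg (x + y + z - 1 - 2 * ((0 : ℕ) : ℤ)) (by norm_num)]
      ring
    have hK : G K = 0 := by
      simp only [hG]
      rw [f_out (by unfold ch; omega)]
      ring
    have h1 : ∑ i ∈ range K, G i = ∑ i ∈ range K, G (i + 1) := by
      have a1 := sum_range_succ G K
      have a2 := sum_range_succ' G K
      rw [h0] at a2
      rw [hK] at a1
      linarith
    rw [h1]
    unfold R
    refine sum_congr rfl fun i _ => ?_
    simp only [hG]
    push_cast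
    congr 1
    · congr 1
      · congr 1 <;> ring
      · congr 1 <;> ring
    · congr 1 <;> ring
  rw [← hq]
  unfold R
  rw [← sum_add_distrib, ← sum_add_distrib, ← sum_add_distrib]
  exact sum_congr rfl fun i _ => hp i

/-- the closed form -/
noncomputable def F (K : ℕ) (m M x y z : ℤ) : ℚ := ∑ k ∈ range K, R K (m - k) (M - k) x y (z - k)

lemma F_out {K : ℕ} {m M x y z : ℤ} (h : x < y ∨ z < 0) : F K m M x y z = 0 := by
  unfold F
  refine sum_eq_zero fun k _ => R_out ?_
  omega

lemma F_rec {K : ℕ} (m M : ℤ) {x y z : ℤ} (h : ch x y z) (hx : 0 < x) (hz : z < K) :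
    F K m M x y z = F K m M (x - 1) y z + F K (m + 1) M x (y - 1) z + F K m M x y (z - 1) +
      F K m (M - 2) (x - 1) (y - 1) (z - 1) := by
  unfold F
  rw [← sum_add_distrib, ← sum_add_distrib, ← sum_add_distrib]
  refine sum_congr rfl fun k _ => ?_
  unfold ch at h
  have e1 : m + 1 - (k : ℤ) = m - k + 1 := by ring
  have e2 : z - 1 - (k : ℤ) = z - k - 1 := by ring
  have e3 : M - 2 - (k : ℤ) = M - k - 2 := by ring
  rw [e1, e2, e3]
  by_cases hk : (k : ℤ) ≤ z
  · exact R_rec (m - k) (M - k) (by unfold ch; omega) hx (by omega)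
  · rw [R_out (by omega), R_out (by omega), R_out (by omega), R_out (by omega), R_out (by omega)]
    ring

lemma F_wall {K : ℕ} (m M : ℤ) {x y : ℤ} (hy : y < K) :
    F K (m + 1) M x (y - 1) y = F K m (M - 1) x (y - 1) (y - 1) := by
  unfold F
  set G : ℕ → ℚ := fun k => R K (m + 1 - k) (M - k) x (y - 1) (y - k) with hG
  have h0 : G 0 = 0 := by
    simp only [hG]
    exact R_out (by omega)
  have hK : G K = 0 := by
    simp only [hG]
    exact R_out (by omega)
  have h1 : ∑ i ∈ range K, G i = ∑ i ∈ range K, G (i + 1) := by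
    have a1 := sum_range_succ G K
    have a2 := sum_range_succ' G K
    rw [h0] at a2
    rw [hK] at a1
    linarith
  rw [h1]
  refine sum_congr rfl fun i _ => ?_
  simp only [hG]
  push_cast
  congr 1 <;> ring

lemma F_zero {K : ℕ} (hK : 0 < K) (m M : ℤ) : F K m M 0 0 0 = c m M := by
  unfold F
  rw [sum_eq_single_of_mem 0 (mem_range.mpr hK)]
  · unfold R
    rw [sum_eq_single_of_mem 0 (mem_range.mpr hK)]
    · simp [f_zero, c_zero]
    · intro i _ hi
      rw [f_out (by unfold ch; omega)]
      ring
  · intro k _ hk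
    exact R_out (by omega)

theorem A_eq_F (K : ℕ) : ∀ (n : ℕ) (m M x y z : ℤ), ch x y z → x + y + z = n → z < K →
    A DS m M x y z = F K m M x y z := by
  intro n
  induction n using Nat.strong_induction_on with
  | _ n ih =>
    intro m M x y z h hn hK
    have hc := h
    unfold ch at hc
    by_cases hx : 0 < x
    · have a1 : A DS m M (x - 1) y z = F K m M (x - 1) y z := by
        by_cases h1 : y ≤ x - 1
        · exact ih (n - 1) (by omega) m M _ _ _ (by unfold ch; omega) (by omega) hK
        · rw [A_out (by unfold ch; omega), F_out (by omega)]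
      have a3 : A DS m M x y (z - 1) = F K m M x y (z - 1) := by
        by_cases h1 : 0 < z
        · exact ih (n - 1) (by omega) m M _ _ _ (by unfold ch; omega) (by omega) (by omega)
        · rw [A_out (by unfold ch; omega), F_out (by omega)]
      have a4 : A DS m (M - 2) (x - 1) (y - 1) (z - 1) =
          F K m (M - 2) (x - 1) (y - 1) (z - 1) := by
        by_cases h1 : 0 < z
        · exact ih (n - 3) (by omega) m (M - 2) _ _ _ (by unfold ch; omega) (by omega) (by omega)
        · rw [A_out (by unfold ch; omega), F_out (by omega)]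
      by_cases hy : z < y
      · have a2 : A DS (m + 1) M x (y - 1) z = F K (m + 1) M x (y - 1) z :=
          ih (n - 1) (by omega) (m + 1) M _ _ _ (by unfold ch; omega) (by omega) hK
        rw [A_i m M h hx hy, F_rec m M h hx hK, a1, a2, a3, a4]
      · have hyz : z = y := by omega
        subst hyz
        by_cases hz : 1 ≤ z
        · have a2 : A DS m (M - 1) x (z - 1) (z - 1) = F K m (M - 1) x (z - 1) (z - 1) :=
            ih (n - 2) (by omega) m (M - 1) _ _ _ (by unfold ch; omega) (by omega) (by omega)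
          rw [A_ii m M h hz, F_rec m M h hx hK, F_wall m M hK, a1, a2, a3, a4]
        · -- y = z = 0
          have hz0 : z = 0 := by omega
          subst hz0
          rw [A_split DS m M hx, S0 m M h, S1 m M h, S2 m M h, F_rec m M h hx hK, a1,
            A_out (x := x) (y := 0 - 1) (by unfold ch; omega),
            Aj_out (x := x) (y := 0 - 1) (by unfold ch; omega),
            Aj_out (x := x) (y := 0) (z := 0 - 1) (by unfold ch; omega),
            A_out (x := x) (y := 0) (z := 0 - 1) (by unfold ch; omega),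
            F_out (x := x) (y := 0) (z := 0 - 1) (by omega),
            F_out (x := x - 1) (y := 0 - 1) (z := 0 - 1) (by omega),
            F_wall m M hK, F_out (x := x) (y := 0 - 1) (z := 0 - 1) (by omega)]
          ring
    · obtain ⟨rfl, rfl, rfl⟩ := ch_zero h hx
      rw [A_zero, F_zero (by omega)]

end Q239.Sul
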