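import Pool.Agent.Q239.Sul.Asc

/-!
# Equidistribution on the ballot words
-/

open Finset

namespace Q239.Sul

lemma sum_c {ι : Type*} (s : Finset ι) (α : ι → ℕ) (N : ℕ) (hα : ∀ i ∈ s, α i ≤ N) (m : ℤ) :
    ∑ i ∈ s, c (m + α i) N =
      ∑ k ∈ range (N + 1), ((s.filter fun i => α i = k).card : ℚ) * c (m + k) N := by
  rw [← sum_fiberwise_of_maps_to (s := s) (t := range (N + 1)) (g := α)
    (fun i hi => mem_range.mpr (by have := hα i hi; omega))]
  refine sum_congr rfl fun k _ => ?_
  rw [sum_congr rfl (g := fun _ => c (m + k) N)]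
  · rw [sum_const, nsmul_eq_mul]
  · intro i hi
    rw [(mem_filter.mp hi).2]

lemma equi {ι : Type*} (s : Finset ι) (α β : ι → ℕ) (N : ℕ) (hα : ∀ i ∈ s, α i ≤ N)
    (hβ : ∀ i ∈ s, β i ≤ N)
    (h : ∀ m : ℕ, ∑ i ∈ s, c ((m : ℤ) + α i) N = ∑ i ∈ s, c ((m : ℤ) + β i) N) (k : ℕ) :
    (s.filter fun i => α i = k).card = (s.filter fun i => β i = k).card := by
  have key : ∀ d k : ℕ, k + d = N → ((s.filter fun i => α i = k).card : ℚ) =
      ((s.filter fun i => β i = k).card : ℚ) := by
    intro d
    induction d using Nat.strong_induction_on with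
    | _ d ih =>
      intro k hk
      have h1 := h d
      rw [sum_c s α N hα, sum_c s β N hβ, ← sub_eq_zero, ← sum_sub_distrib,
        sum_eq_single_of_mem k (mem_range.mpr (by omega))] at h1
      · have e : c ((d : ℤ) + k) N = 1 := by
          have e1 : ((d : ℤ) + k) = ((N : ℕ) : ℤ) := by rw [← hk]; push_cast; ring
          rw [e1, c_nat, sub_self, fi_zero, mul_one, fac_mul_fi]
        rw [e] at h1
        linarith
      · intro j hj hjk
        have hj' := mem_range.mp hj
        rcases lt_or_gt_of_ne hjk with h2 | h2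
        · have e1 : ((d : ℤ) + j) = ((d + j : ℕ) : ℤ) := by push_cast; ring
          rw [e1, c_nat, fi_neg (k := ((d + j : ℕ) : ℤ) - N) (by push_cast; omega)]
          ring
        · rw [ih (N - j) (by omega) j (by omega)]
          ring
  by_cases hk : k ≤ N
  · have := key (N - k) k (by omega)
    exact_mod_cast this
  · rw [filter_false_of_mem, filter_false_of_mem]
    · intro i hi h0
      have := hβ i hi
      omega
    · intro i hi h0
      have := hα i hi
      omega

lemma asc_bound : ∀ l : List (Fin 3), Bal l → 2 ≤ l.length → stat DA l + 2 ≤ l.length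
  | [], _, h => by simp at h
  | [a], _, h => by simp at h
  | [a, b], hB, _ => by
    have h1 : Bal [b] := hB.2.2
    have hb : b = 0 := by
      fin_cases b
      · rfl
      · have := h1.1; simp at this
      · have := h1.2.1; simp at this
    subst hb
    simp [stat, DA]
  | a :: b :: d :: l, hB, _ => by
    have := asc_bound (b :: d :: l) hB.2.2 (by simp)
    rw [stat_cons]
    simp only [List.length_cons] at this ⊢
    split_ifs <;> omega

/-- the ballot words of the rectangle -/
def WW (n : ℕ) : Finset (List (Fin 3)) := (L3 (3 * n)).filter fun l => Ok n n n l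

lemma mem_WW {n : ℕ} {l : List (Fin 3)} : l ∈ WW n ↔ Bal l ∧ l.count 0 = n ∧ l.count 1 = n ∧
    l.count 2 = n := by
  unfold WW
  rw [mem_filter, mem_L3]
  unfold Ok
  constructor
  · rintro ⟨_, h1, h2, h3, h4⟩
    exact ⟨h1, by exact_mod_cast h2, by exact_mod_cast h3, by exact_mod_cast h4⟩
  · rintro ⟨h1, h2, h3, h4⟩
    refine ⟨?_, h1, by exact_mod_cast h2, by exact_mod_cast h3, by exact_mod_cast h4⟩
    rw [length_eq]
    omega

lemma A_WW (D : Fin 3 → Fin 3 → Bool) (n : ℕ) (m M : ℤ) :
    A D m M n n n = ∑ l ∈ WW n, c (m + stat D l) M := by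
  unfold A Sm WW
  rw [sum_filter]
  have e : ((n : ℤ) + n + n).toNat = 3 * n := by omega
  rw [e]

theorem words (n : ℕ) (hn : 1 ≤ n) (k : ℕ) :
    ((WW n).filter fun l => stat DS l = k).card =
      ((WW n).filter fun l => stat DA l + 2 = k).card := by
  have hlen : ∀ l ∈ WW n, l.length = 3 * n := by
    intro l hl
    exact mem_L3.mp (mem_filter.mp hl).1
  refine equi (WW n) (fun l => stat DS l) (fun l => stat DA l + 2) (3 * n) ?_ ?_ ?_ k
  · intro l hl
    have h1 := stat_lt DS l (by
      intro h0
      have := hlen l hl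
      rw [h0] at this
      simp at this
      omega)
    have := hlen l hl
    show stat DS l ≤ 3 * n
    omega
  · intro l hl
    have h1 := asc_bound l (mem_WW.mp hl).1 (by rw [hlen l hl]; omega)
    have := hlen l hl
    show stat DA l + 2 ≤ 3 * n
    omega
  · intro m
    have h1 := A_rect n m
    have h2 := A_eq_Dt (m + 2) (3 * n) n n n (by ring) (Or.inl (by unfold ch; omega))
    have h3 := Dt_rect n m
    rw [A_WW] at h1 h2
    have e1 : (((3 * n : ℕ) : ℤ)) = 3 * (n : ℤ) := by push_cast; ring
    rw [e1, h1, ← h3]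
    push_cast at h2
    rw [← h2]
    refine sum_congr rfl fun l _ => ?_
    congr 1
    push_cast
    ring

end Q239.Sul
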