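import Pool.Agent.Q239.Sul.Closed

/-!
# The value at the rectangle
-/

open Finset

namespace Q239.Sul

/-- the common value -/
noncomputable def H (n m : ℕ) : ℚ :=
  2 * (m.factorial * (m + 1).factorial * (m + 2).factorial) *
    (fi n * fi (n + 1) * fi (n + 2)) * (fi (m - n) * fi (m - n + 1) * fi (m - n + 2))

lemma fi_succ (k : ℤ) : fi k = (k + 1) * fi (k + 1) := by
  have := fi_pred (k + 1)
  rw [show k + 1 - 1 = k by ring] at this
  rw [this]; push_cast; ring

/-- the quadratic polynomial of the telescoping sum -/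
noncomputable def qq (m p l : ℚ) : ℚ :=
  1 / (m + 3) * l ^ 2 + (-((2 * p + 3) + (2 * m + 3) / (m + 3)) / (m + 2)) * l +
    ((p + 1) * (p + 2) / (m + 1) - 1 / (m + 3) +
      ((2 * p + 3) + (2 * m + 3) / (m + 3)) / (m + 2))

lemma qq_rec (m : ℕ) (p l : ℚ) :
    (m + l + 1) * qq m p (l + 1) - l * qq m p l = (p - l + 1) * (p - l + 2) := by
  unfold qq
  have h1 : ((m : ℚ) + 1) ≠ 0 := by positivity
  have h2 : ((m : ℚ) + 2) ≠ 0 := by positivity
  have h3 : ((m : ℚ) + 3) ≠ 0 := by positivity
  field_simp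
  ring

lemma qq_end (m : ℕ) (p : ℚ) :
    qq m p (p + 1) = 2 * (m + p + 3) * (m + p + 2) / ((m + 1) * (m + 2) * (m + 3)) := by
  unfold qq
  have h1 : ((m : ℚ) + 1) ≠ 0 := by positivity
  have h2 : ((m : ℚ) + 2) ≠ 0 := by positivity
  have h3 : ((m : ℚ) + 3) ≠ 0 := by positivity
  field_simp
  ring

lemma inner_aux (m : ℕ) (p : ℚ) (r : ℕ) :
    ∑ l ∈ range r, (p - l + 1) * (p - l + 2) * ((m + l).factorial : ℚ) * fi l =
      ((m + r).factorial : ℚ) * fi r * r * qq m p r := by
  induction r with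
  | zero => simp
  | succ r ih =>
    rw [sum_range_succ, ih]
    have e1 : ((m + (r + 1)).factorial : ℚ) = (m + r + 1) * (m + r).factorial := by
      rw [show m + (r + 1) = (m + r) + 1 by ring, Nat.factorial_succ]
      push_cast; ring
    have e2 := fi_succ r
    have e3 := qq_rec m p r
    have e4 : ((r + 1 : ℕ) : ℤ) = (r : ℤ) + 1 := by push_cast; ring
    rw [e1, e4]
    push_cast at e2 ⊢
    rw [e2]
    linear_combination (-(m + r).factorial * (((r : ℚ) + 1) * fi (r + 1))) * e3

lemma inner (m p : ℕ) :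
    ∑ l ∈ range (p + 1), ((p : ℚ) - l + 1) * (p - l + 2) * ((m + l).factorial : ℚ) * fi l =
      2 * ((m + p + 3).factorial : ℚ) * fi p / ((m + 1) * (m + 2) * (m + 3)) := by
  rw [inner_aux]
  have e2 := fi_succ p
  have e3 := qq_end m p
  have e1 : ((m + p + 3).factorial : ℚ) = (m + p + 3) * ((m + p + 2) * (m + (p + 1)).factorial) := by
    rw [show m + p + 3 = (m + p + 2) + 1 by ring, Nat.factorial_succ,
      show m + p + 2 = (m + (p + 1)) + 1 by ring, Nat.factorial_succ]
    push_cast; ring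
  push_cast at e2 ⊢
  rw [e1, e2, e3]
  have h1 : ((m : ℚ) + 1) ≠ 0 := by positivity
  have h2 : ((m : ℚ) + 2) ≠ 0 := by positivity
  have h3 : ((m : ℚ) + 3) ≠ 0 := by positivity
  field_simp

/-- the sum over `p` -/
noncomputable def SS (q n : ℕ) : ℚ :=
  ∑ p ∈ range (n + 1), ((n + q + p + 3).factorial : ℚ) * (fi p * fi (p + 1) * fi (p + 2)) *
    fi (n - p) * fi (q - p)

lemma SS_rec (q n : ℕ) : ((n : ℚ) + 1) * (n + 2) * (n + 3) * SS q (n + 1) =
    (n + q + 2) * (n + q + 3) * (n + q + 4) * SS q n := by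
  set C : ℕ → ℚ := fun p => ((n + q + p + 3).factorial : ℚ) * (fi p * fi (p + 1) * fi (p + 2)) *
    fi (n + 1 - p) * fi (q - p) with hC
  set G : ℕ → ℚ := fun p => -(2 * n + q + 5) * (p * (p + 1) * (p + 2)) * C p with hG
  have e1 : SS q (n + 1) = ∑ p ∈ range (n + 2), (n + q + p + 4) * C p := by
    unfold SS
    refine sum_congr rfl fun p _ => ?_
    simp only [hC]
    have : ((n + 1 + q + p + 3).factorial : ℚ) = (n + q + p + 4) * (n + q + p + 3).factorial := by
      rw [show n + 1 + q + p + 3 = (n + q + p + 3) + 1 by ring, Nat.factorial_succ]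
      push_cast; ring
    rw [this]
    push_cast
    ring
  have e2 : SS q n = ∑ p ∈ range (n + 2), (n + 1 - p) * C p := by
    rw [sum_range_succ]
    have h0 : ((n : ℚ) + 1 - ((n + 1 : ℕ) : ℚ)) * C (n + 1) = 0 := by
      push_cast; ring
    rw [h0, add_zero]
    unfold SS
    refine sum_congr rfl fun p _ => ?_
    simp only [hC]
    have := fi_succ ((n : ℤ) - p)
    rw [this]
    rw [show (n : ℤ) - p + 1 = n + 1 - p by ring]
    push_cast
    ring
  have e3 : ∀ p : ℕ, ((n : ℚ) + 1) * (n + 2) * (n + 3) * ((n + q + p + 4) * C p) -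
      (n + q + 2) * (n + q + 3) * (n + q + 4) * ((n + 1 - p) * C p) = G (p + 1) - G p := by
    intro p
    simp only [hG]
    have h1 : C (p + 1) * ((p + 1) * (p + 2) * (p + 3)) =
        (n + q + p + 4) * (n + 1 - p) * (q - p) * C p := by
      simp only [hC]
      have a1 : ((n + q + (p + 1) + 3).factorial : ℚ) =
          (n + q + p + 4) * (n + q + p + 3).factorial := by
        rw [show n + q + (p + 1) + 3 = (n + q + p + 3) + 1 by ring, Nat.factorial_succ]
        push_cast; ring
      have a2 := fi_succ (p : ℤ)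
      have a3 := fi_succ ((p : ℤ) + 1)
      have a4 := fi_succ ((p : ℤ) + 2)
      have a5 := fi_pred ((n : ℤ) + 1 - p)
      have a6 := fi_pred ((q : ℤ) - p)
      rw [a1]
      push_cast at a2 a3 a4 a5 a6 ⊢
      rw [show (p : ℤ) + 1 + 1 = p + 2 by ring] at a3 ⊢
      rw [show (p : ℤ) + 2 + 1 = p + 3 by ring] at a4
      rw [show (p : ℤ) + 1 + 2 = p + 3 by ring]
      rw [show (n : ℤ) + 1 - p - 1 = n + 1 - (p + 1) by ring] at a5
      rw [show (q : ℤ) - p - 1 = q - (p + 1) by ring] at a6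
      rw [a5, a6, a2, a3, a4]
      ring
    push_cast
    have h2 : -(2 * (n : ℚ) + q + 5) * ((p + 1) * (p + 1 + 1) * (p + 1 + 2)) * C (p + 1) =
        -(2 * (n : ℚ) + q + 5) * (C (p + 1) * ((p + 1) * (p + 2) * (p + 3))) := by ring
    rw [h2, h1]
    ring
  have e4 : ∑ p ∈ range (n + 2), (G (p + 1) - G p) = 0 := by
    rw [sum_range_sub]
    have h1 : G (n + 2) = 0 := by
      simp only [hG, hC]
      rw [fi_neg (k := (n : ℤ) + 1 - ((n + 2 : ℕ) : ℤ)) (by push_cast; omega)]
      ring
    have h2 : G 0 = 0 := by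
      simp only [hG]
      push_cast
      ring
    rw [h1, h2]; ring
  rw [e1, e2, mul_sum, mul_sum]
  rw [← sub_eq_zero, ← sum_sub_distrib, ← e4]
  exact sum_congr rfl fun p _ => e3 p

lemma SS_eq (q n : ℕ) : SS q n =
    ((n + q + 1).factorial * (n + q + 2).factorial * (n + q + 3).factorial : ℚ) *
      (fi n * fi (n + 1) * fi (n + 2)) * (fi q * fi (q + 1) * fi (q + 2)) := by
  induction n with
  | zero =>
    unfold SS
    rw [sum_range_one]
    have h1 := fac_mul_fi (q + 1)
    have h2 := fac_mul_fi (q + 2)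
    push_cast at h1 h2 ⊢
    simp only [zero_add, Nat.add_zero, sub_zero, fi_zero]
    have h3 : fi (1 : ℤ) = 1 := by
      have := fi_nat 1
      norm_num at this ⊢
      exact this
    rw [h3]
    linear_combination (-((q + 3).factorial : ℚ) * fi 2 * fi q) * h1 -
      ((q + 3).factorial : ℚ) * fi 2 * fi q * ((q + 1).factorial * fi (q + 1)) * h2
  | succ n ih =>
    have h := SS_rec q n
    rw [ih] at h
    have a1 := fi_succ (n : ℤ)
    have a2 := fi_succ ((n : ℤ) + 1)
    have a3 := fi_succ ((n : ℤ) + 2)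
    have b1 : ((n + 1 + q + 1).factorial : ℚ) = (n + q + 2) * (n + q + 1).factorial := by
      rw [show n + 1 + q + 1 = (n + q + 1) + 1 by ring, Nat.factorial_succ]
      push_cast; ring
    have b2 : ((n + 1 + q + 2).factorial : ℚ) = (n + q + 3) * (n + q + 2).factorial := by
      rw [show n + 1 + q + 2 = (n + q + 2) + 1 by ring, Nat.factorial_succ]
      push_cast; ring
    have b3 : ((n + 1 + q + 3).factorial : ℚ) = (n + q + 4) * (n + q + 3).factorial := by
      rw [show n + 1 + q + 3 = (n + q + 3) + 1 by ring, Nat.factorial_succ]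
      push_cast; ring
    rw [b1, b2, b3]
    push_cast at a1 a2 a3 ⊢
    rw [show (n : ℤ) + 1 + 1 = n + 2 by ring] at a2 ⊢
    rw [show (n : ℤ) + 2 + 1 = n + 3 by ring] at a3
    rw [show (n : ℤ) + 1 + 2 = n + 3 by ring]
    rw [a1, a2, a3] at h
    have hne : ((n : ℚ) + 1) * (n + 2) * (n + 3) ≠ 0 := by positivity
    apply mul_left_cancel₀ hne
    rw [h, a2, a3]
    ring

lemma term_eq (n m : ℕ) {p l : ℕ} (hl : l ≤ p) :
    c ((m : ℤ) + l) (n + p + l) * c ((n : ℤ) + p + l) (n - p) * f p p l =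
      (fi (m - n - p) * fi (n - p) * fi (p + 2) * fi (p + 1)) *
        (((p : ℚ) - l + 1) * (p - l + 2) * ((m + l).factorial : ℚ) * fi l) := by
  have e1 : ((m : ℤ) + l) = ((m + l : ℕ) : ℤ) := by push_cast; ring
  have e2 : ((n : ℤ) + p + l) = ((n + p + l : ℕ) : ℤ) := by push_cast; ring
  have h1 := fac_mul_fi (n + p + l)
  have h2 := fac_mul_fi (2 * p + l)
  rw [e1, e2, c_nat, c_nat]
  have e3 : ((m + l : ℕ) : ℤ) - ((n + p + l : ℕ) : ℤ) = m - n - p := by push_cast; ring
  have e4 : ((n + p + l : ℕ) : ℤ) - ((n : ℤ) - p) = ((2 * p + l : ℕ) : ℤ) := by push_cast; ring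
  rw [e3, e4]
  unfold f g
  rw [if_pos (by unfold ch; omega)]
  have e5 : ((p : ℤ) + p + l).toNat = 2 * p + l := by omega
  rw [e5]
  push_cast
  push_cast at h1 h2
  linear_combination ((m + l).factorial : ℚ) * fi (m - n - p) * fi (n - p) *
    (((p : ℚ) - l + 1) * (p - l + 2)) * fi (p + 2) * fi (p + 1) * fi l *
      (((2 * p + l).factorial : ℚ) * fi (2 * p + l) * h1 + h2)

lemma F_rect (n m : ℕ) : F (n + 1) m (3 * n) n n n =
    ∑ p ∈ range (n + 1), ∑ l ∈ range (p + 1),
      c ((m : ℤ) + l) (n + p + l) * c ((n : ℤ) + p + l) (n - p) * f p p l := by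
  unfold F R
  rw [sum_comm, ← sum_range_reflect]
  refine sum_congr rfl fun p hp => ?_
  have hpn : p ≤ n := by
    have := mem_range.mp hp
    omega
  have e1 : ((n + 1 - 1 - p : ℕ) : ℤ) = n - p := by omega
  rw [e1]
  have hsub : range (p + 1) ⊆ range (n + 1) := by
    intro a ha
    rw [mem_range] at ha ⊢
    omega
  rw [← sum_subset hsub]
  · rw [← sum_range_reflect]
    refine sum_congr rfl fun l hl => ?_
    have hlp : l ≤ p := by
      have := mem_range.mp hl
      omega
    have e2 : ((p + 1 - 1 - l : ℕ) : ℤ) = p - l := by omega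
    rw [e2]
    congr 1
    · congr 1
      · congr 1 <;> ring
      · congr 1
        ring
    · congr 1 <;> ring
  · intro k _ hk
    rw [mem_range] at hk
    rw [f_out (by unfold ch; omega)]
    ring

theorem A_rect (n m : ℕ) : A DS m (3 * n) n n n = H n m := by
  rw [A_eq_F (n + 1) (3 * n) m (3 * n) n n n (by unfold ch; omega) (by push_cast; ring)
    (by push_cast; omega), F_rect]
  have e1 : ∀ p ∈ range (n + 1), ∑ l ∈ range (p + 1),
      c ((m : ℤ) + l) (n + p + l) * c ((n : ℤ) + p + l) (n - p) * f p p l =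
      2 / (((m : ℚ) + 1) * (m + 2) * (m + 3)) *
        (((m + p + 3).factorial : ℚ) * (fi p * fi (p + 1) * fi (p + 2)) * fi (n - p) *
          fi (m - n - p)) := by
    intro p _
    rw [sum_congr rfl fun l hl => term_eq n m (by have := mem_range.mp hl; omega), ← mul_sum,
      inner]
    ring
  rw [sum_congr rfl e1, ← mul_sum]
  rcases lt_or_ge m n with h | h
  · rw [sum_eq_zero]
    · unfold H
      rw [fi_neg (k := (m : ℤ) - n) (by omega)]
      ring
    · intro p _
      rw [fi_neg (k := (m : ℤ) - n - p) (by omega)]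
      ring
  · obtain ⟨q, rfl⟩ : ∃ q, m = n + q := ⟨m - n, by omega⟩
    have e2 : ∑ p ∈ range (n + 1), (((n + q + p + 3).factorial : ℚ) *
        (fi p * fi (p + 1) * fi (p + 2)) * fi (n - p) * fi (((n + q : ℕ) : ℤ) - n - p)) = SS q n := by
      unfold SS
      refine sum_congr rfl fun p _ => ?_
      congr 2
      push_cast
      ring
    rw [e2, SS_eq]
    unfold H
    have e3 : (((n + q : ℕ) : ℤ) - n) = q := by push_cast; ring
    rw [e3]
    have b1 : ((n + q + 1).factorial : ℚ) = (n + q + 1) * (n + q).factorial := by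
      rw [Nat.factorial_succ]; push_cast; ring
    have b2 : ((n + q + 2).factorial : ℚ) = (n + q + 2) * (n + q + 1).factorial := by
      rw [show n + q + 2 = (n + q + 1) + 1 by ring, Nat.factorial_succ]; push_cast; ring
    have b3 : ((n + q + 3).factorial : ℚ) = (n + q + 3) * (n + q + 2).factorial := by
      rw [show n + q + 3 = (n + q + 2) + 1 by ring, Nat.factorial_succ]; push_cast; ring
    rw [b3, b2, b1]
    have h1 : ((n : ℚ) + q + 1) ≠ 0 := by positivity
    have h2 : ((n : ℚ) + q + 2) ≠ 0 := by positivity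
    have h3 : ((n : ℚ) + q + 3) ≠ 0 := by positivity
    push_cast
    field_simp

end Q239.Sul
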