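import Pool.Agent.Q239.Sul.Base

/-!
# The recursions for the last letter
-/

open Finset

namespace Q239.Sul

/-- the pairs `12`, `22`, `23` -/
def DS (r s : Fin 3) : Bool := (r = 0 ∧ s = 1) ∨ (r = 1 ∧ s = 1) ∨ (r = 1 ∧ s = 2)

/-- the pairs `21`, `31`, `32` -/
def DA (r s : Fin 3) : Bool := s < r

/-- the transform of the distribution of the statistic -/
noncomputable def A (D : Fin 3 → Fin 3 → Bool) (m M x y z : ℤ) : ℚ :=
  Sm x y z fun l => c (m + stat D l) M

/-- the same for a given last letter -/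
noncomputable def Aj (D : Fin 3 → Fin 3 → Bool) (j : Fin 3) (m M x y z : ℤ) : ℚ :=
  Sm x y z fun l => if l.head? = some j then c (m + stat D l) M else 0

lemma A_out {x y z : ℤ} (h : ¬ ch x y z) (D : Fin 3 → Fin 3 → Bool) (m M : ℤ) :
    A D m M x y z = 0 := Sm_out h _

lemma Aj_out {x y z : ℤ} (h : ¬ ch x y z) (D : Fin 3 → Fin 3 → Bool) (j : Fin 3) (m M : ℤ) :
    Aj D j m M x y z = 0 := Sm_out h _

lemma A_zero (D : Fin 3 → Fin 3 → Bool) (m M : ℤ) : A D m M 0 0 0 = c m M := by
  unfold A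
  rw [Sm_zero]
  simp [stat]

lemma Aj_zero (D : Fin 3 → Fin 3 → Bool) (j : Fin 3) (m M : ℤ) : Aj D j m M 0 0 0 = 0 := by
  unfold Aj
  rw [Sm_zero]
  simp

lemma A_split (D : Fin 3 → Fin 3 → Bool) (m M : ℤ) {x y z : ℤ} (hx : 0 < x) :
    A D m M x y z = Aj D 0 m M x y z + Aj D 1 m M x y z + Aj D 2 m M x y z := by
  unfold A Aj
  rw [← Sm_add, ← Sm_add]
  refine Sm_congr fun l hl => ?_
  cases l with
  | nil =>
    have := hl.2.1
    simp at this
    omega
  | cons a l =>
    fin_cases a <;> simp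

lemma ch_zero {x y z : ℤ} (h : ch x y z) (hx : ¬ 0 < x) : x = 0 ∧ y = 0 ∧ z = 0 := by
  unfold ch at h
  omega

lemma stat_cons (D : Fin 3 → Fin 3 → Bool) (a b : Fin 3) (l : List (Fin 3)) :
    stat D (a :: b :: l) = (if D b a then 1 else 0) + stat D (b :: l) := rfl

lemma stat_one (D : Fin 3 → Fin 3 → Bool) (a : Fin 3) : stat D [a] = 0 := rfl

lemma stat_nil (D : Fin 3 → Fin 3 → Bool) : stat D [] = 0 := rfl

/-- the recursion for the last letter -/
lemma Aj_rec0 (D : Fin 3 → Fin 3 → Bool) (m M : ℤ) {x y z : ℤ} (h : ch x y z) :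
    Aj D 0 m M x y z = Sm (x - 1) y z fun l => c (m + stat D (0 :: l)) M := by
  by_cases hx : 0 < x
  · unfold Aj
    rw [Sm_succ h hx]
    have e1 : (Sm x (y - 1) z fun l => if (1 :: l : List (Fin 3)).head? = some 0 then
        c (m + stat D (1 :: l)) M else 0) = 0 := by
      unfold Sm
      refine sum_eq_zero fun l _ => ?_
      simp
    have e2 : (Sm x y (z - 1) fun l => if (2 :: l : List (Fin 3)).head? = some 0 then
        c (m + stat D (2 :: l)) M else 0) = 0 := by
      unfold Sm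
      refine sum_eq_zero fun l _ => ?_
      simp
    rw [e1, e2]
    simp
  · obtain ⟨rfl, rfl, rfl⟩ := ch_zero h hx
    rw [Aj_zero, Sm_out (by unfold ch; omega)]

lemma Aj_rec1 (D : Fin 3 → Fin 3 → Bool) (m M : ℤ) {x y z : ℤ} (h : ch x y z) :
    Aj D 1 m M x y z = Sm x (y - 1) z fun l => c (m + stat D (1 :: l)) M := by
  by_cases hx : 0 < x
  · unfold Aj
    rw [Sm_succ h hx]
    have e1 : (Sm (x - 1) y z fun l => if (0 :: l : List (Fin 3)).head? = some 1 then
        c (m + stat D (0 :: l)) M else 0) = 0 := by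
      unfold Sm
      refine sum_eq_zero fun l _ => ?_
      simp
    have e2 : (Sm x y (z - 1) fun l => if (2 :: l : List (Fin 3)).head? = some 1 then
        c (m + stat D (2 :: l)) M else 0) = 0 := by
      unfold Sm
      refine sum_eq_zero fun l _ => ?_
      simp
    rw [e1, e2]
    simp
  · obtain ⟨rfl, rfl, rfl⟩ := ch_zero h hx
    rw [Aj_zero, Sm_out (by unfold ch; omega)]

lemma Aj_rec2 (D : Fin 3 → Fin 3 → Bool) (m M : ℤ) {x y z : ℤ} (h : ch x y z) :
    Aj D 2 m M x y z = Sm x y (z - 1) fun l => c (m + stat D (2 :: l)) M := by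
  by_cases hx : 0 < x
  · unfold Aj
    rw [Sm_succ h hx]
    have e1 : (Sm (x - 1) y z fun l => if (0 :: l : List (Fin 3)).head? = some 2 then
        c (m + stat D (0 :: l)) M else 0) = 0 := by
      unfold Sm
      refine sum_eq_zero fun l _ => ?_
      simp
    have e2 : (Sm x (y - 1) z fun l => if (1 :: l : List (Fin 3)).head? = some 2 then
        c (m + stat D (1 :: l)) M else 0) = 0 := by
      unfold Sm
      refine sum_eq_zero fun l _ => ?_
      simp
    rw [e1, e2]
    simp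
  · obtain ⟨rfl, rfl, rfl⟩ := ch_zero h hx
    rw [Aj_zero, Sm_out (by unfold ch; omega)]

lemma c_succ (a M : ℤ) : c (a + 1) M = c a M + c a (M - 1) := c_pascal a M

/-! ### the first statistic -/

lemma S0 (m M : ℤ) {x y z : ℤ} (h : ch x y z) :
    Aj DS 0 m M x y z = A DS m M (x - 1) y z := by
  rw [Aj_rec0 DS m M h]
  refine Sm_congr fun l _ => ?_
  cases l with
  | nil => simp [stat]
  | cons b l =>
    rw [stat_cons]
    fin_cases b <;> simp [DS]

lemma S2 (m M : ℤ) {x y z : ℤ} (h : ch x y z) :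
    Aj DS 2 m M x y z = A DS m M x y (z - 1) + Aj DS 1 m (M - 1) x y (z - 1) := by
  rw [Aj_rec2 DS m M h]
  unfold A Aj
  rw [← Sm_add]
  refine Sm_congr fun l _ => ?_
  cases l with
  | nil => simp [stat]
  | cons b l =>
    rw [stat_cons]
    fin_cases b <;> simp [DS]
    rw [← c_succ]
    congr 1
    ring

lemma S1 (m M : ℤ) {x y z : ℤ} (h : ch x y z) :
    Aj DS 1 m M x y z = A DS (m + 1) M x (y - 1) z - Aj DS 2 m (M - 1) x (y - 1) z := by
  rw [Aj_rec1 DS m M h]
  unfold A Aj
  rw [← Sm_sub]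
  refine Sm_congr fun l hl => ?_
  cases l with
  | nil =>
    exfalso
    unfold ch at h
    obtain ⟨-, h1, h2, h3⟩ := hl
    simp at h1 h2 h3
    omega
  | cons b l =>
    rw [stat_cons]
    have e := c_succ (m + (stat DS (b :: l) : ℤ)) M
    have e2 : m + 1 + (stat DS (b :: l) : ℤ) = m + stat DS (b :: l) + 1 := by ring
    rw [e2]
    fin_cases b
    · simp [DS]
      congr 1
      ring
    · simp [DS]
      congr 1
      ring
    · simp [DS] at e ⊢
      rw [e]
      ring

/-! ### the number of ascents -/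

lemma T2 (m M : ℤ) {x y z : ℤ} (h : ch x y z) :
    Aj DA 2 m M x y z = A DA m M x y (z - 1) := by
  rw [Aj_rec2 DA m M h]
  refine Sm_congr fun l _ => ?_
  cases l with
  | nil => simp [stat]
  | cons b l =>
    rw [stat_cons]
    fin_cases b <;> simp [DA]

lemma T1 (m M : ℤ) {x y z : ℤ} (h : ch x y z) :
    Aj DA 1 m M x y z = A DA m M x (y - 1) z + Aj DA 2 m (M - 1) x (y - 1) z := by
  rw [Aj_rec1 DA m M h]
  unfold A Aj
  rw [← Sm_add]
  refine Sm_congr fun l _ => ?_
  cases l with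
  | nil => simp [stat]
  | cons b l =>
    rw [stat_cons]
    fin_cases b <;> simp [DA]
    rw [← c_succ]
    congr 1
    ring

lemma T0 (m M : ℤ) {x y z : ℤ} (h : ch x y z) :
    Aj DA 0 m M x y z = A DA m M (x - 1) y z + Aj DA 1 m (M - 1) (x - 1) y z +
      Aj DA 2 m (M - 1) (x - 1) y z := by
  rw [Aj_rec0 DA m M h]
  unfold A Aj
  rw [← Sm_add, ← Sm_add]
  refine Sm_congr fun l _ => ?_
  cases l with
  | nil => simp [stat]
  | cons b l =>
    rw [stat_cons]
    fin_cases b <;> simp [DA]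
    · rw [← c_succ]
      congr 1
      ring
    · rw [← c_succ]
      congr 1
      ring

end Q239.Sul
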